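import Mathlib
import Pool.Agent.H759R2.Kad.Props7

/-! # G2: direct sums of GNS representations -/

open scoped ComplexOrder InnerProductSpace ComplexConjugate
open Finset

noncomputable section

namespace H759R2.Kad

universe u v

section DirectSum

variable {A : Type u} [CStarAlgebra A] {I : Type u} (K : I → Type u)
  [∀ i, NormedAddCommGroup (K i)] [∀ i, InnerProductSpace ℂ (K i)] [∀ i, CompleteSpace (K i)]
  (π : ∀ i, A →⋆ₐ[ℂ] (K i →L[ℂ] K i))

theorem dsG_norm (i : I) (a : A) (x : K i) : ‖π i a x‖ ≤ ‖a‖ * ‖x‖ :=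
  ((π i a).le_opNorm x).trans
    (mul_le_mul_of_nonneg_right (NonUnitalStarAlgHom.norm_apply_le (π i) a) (norm_nonneg x))

theorem dsG_le (a : A) (x : lp K 2) (i : I) : ‖π i a (x i)‖ ≤ ‖((‖a‖ : ℂ) • x) i‖ := by
  rw [lp.coeFn_smul, Pi.smul_apply, norm_smul]
  simpa using dsG_norm K π i a (x i)

theorem dsG_mem (a : A) (x : lp K 2) : Memℓp (fun i => π i a (x i)) 2 :=
  (lp.memℓp ((‖a‖ : ℂ) • x)).mono' (fun i => dsG_le K π a x i)

/-- the direct sum of the operators, a linear map -/
def dsGLin (a : A) : lp K 2 →ₗ[ℂ] lp K 2 where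
  toFun x := ⟨fun i => π i a (x i), dsG_mem K π a x⟩
  map_add' x y := by
    apply lp.ext
    funext i
    exact map_add (π i a) (x i) (y i)
  map_smul' c x := by
    apply lp.ext
    funext i
    exact map_smul (π i a) c (x i)

/-- the direct sum of the operators -/
def dsGOp (a : A) : lp K 2 →L[ℂ] lp K 2 :=
  (dsGLin K π a).mkContinuous ‖a‖ (fun x => by
    have h : ‖dsGLin K π a x‖ ≤ ‖(‖a‖ : ℂ) • x‖ :=
      lp.norm_mono (by norm_num) (fun i => dsG_le K π a x i)
    rw [norm_smul] at h
    simpa using h)

theorem dsGOp_apply (a : A) (x : lp K 2) (i : I) : (dsGOp K π a x) i = π i a (x i) := rfl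

/-- the direct sum of the representations -/
def dsG : A →⋆ₐ[ℂ] (lp K 2 →L[ℂ] lp K 2) where
  toFun := dsGOp K π
  map_one' := by
    apply ContinuousLinearMap.ext
    intro x
    apply lp.ext
    funext i
    rw [dsGOp_apply, map_one]
    rfl
  map_mul' a b := by
    apply ContinuousLinearMap.ext
    intro x
    apply lp.ext
    funext i
    rw [dsGOp_apply, map_mul]
    rfl
  map_zero' := by
    apply ContinuousLinearMap.ext
    intro x
    apply lp.ext
    funext i
    rw [dsGOp_apply, map_zero]
    rfl
  map_add' a b := by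
    apply ContinuousLinearMap.ext
    intro x
    apply lp.ext
    funext i
    rw [dsGOp_apply, map_add]
    rfl
  commutes' c := by
    apply ContinuousLinearMap.ext
    intro x
    apply lp.ext
    funext i
    rw [dsGOp_apply, AlgHomClass.commutes]
    rfl
  map_star' a := by
    rw [ContinuousLinearMap.star_eq_adjoint, ContinuousLinearMap.eq_adjoint_iff]
    intro x y
    rw [lp.inner_eq_tsum, lp.inner_eq_tsum]
    congr 1
    funext i
    rw [dsGOp_apply, dsGOp_apply, map_star, ContinuousLinearMap.star_eq_adjoint,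
      ContinuousLinearMap.adjoint_inner_left]

theorem dsG_apply (a : A) (x : lp K 2) (i : I) : (dsG K π a x) i = π i a (x i) := rfl

end DirectSum

theorem prove7_univ (h : R_gns.{u}) : G_univ.{u} := by
  classical
  intro A _ I φ hφ
  choose K iN iI iC π Ω hΩ _ using fun i => h A (φ i) (hφ i)
  refine ⟨lp K 2, inferInstance, inferInstance, inferInstance, dsG K π,
    fun i => lp.single 2 i (Ω i), ?_, ?_⟩
  · intro i a
    rw [lp.inner_single_left, dsG_apply, lp.single_apply_self]
    exact hΩ i a
  · intro i j a hij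
    rw [lp.inner_single_left, dsG_apply, lp.single_apply_ne _ _ _ hij, map_zero, inner_zero_right]

end H759R2.Kad
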